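import Pool.Agent.helper56.P2.SpecU

/-!
# Row UHH (MP_063734_an): vertical variation with the logarithmic cut-off
-/

set_option autoImplicit false

namespace Pool.Agent.P2U

open MeasureTheory Set Filter Topology Metric Complex
open scoped ENNReal ContDiff

noncomputable section

/-- the normalised indicator of a disc -/
theorem UHH_area (r : ℝ) (hr : 0 < r) :
    Integrable ((ball (0 : ℂ) r).indicator fun _ => 1 / r ^ 2) volume ∧
      ∫ v : ℂ, (ball (0 : ℂ) r).indicator (fun _ => 1 / r ^ 2) v = Real.pi := by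
  have hm : MeasurableSet (ball (0 : ℂ) r) := isOpen_ball.measurableSet
  have hfin : volume (ball (0 : ℂ) r) ≠ ⊤ := measure_ball_lt_top.ne
  constructor
  · exact (integrable_indicator_iff hm).mpr (integrableOn_const hfin)
  · rw [integral_indicator hm, setIntegral_const, measureReal_def, Complex.volume_ball,
      ENNReal.toReal_mul, ENNReal.toReal_pow, ENNReal.toReal_ofReal hr.le]
    simp only [ENNReal.coe_toReal, NNReal.coe_real_pi, smul_eq_mul]
    field_simp

/-- the slices of an analytic function -/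
theorem UHH_slice (P : ℂ × ℂ → ℂ) (τ : ℝ) (hP : AnalyticOnNhd ℂ P (TB 4 τ)) (x : ℂ) (hx : ‖x‖ < 4) :
    AnalyticOnNhd ℂ (fun v => P (x, v)) (ball 0 τ) ∧
      ∀ v ∈ ball (0 : ℂ) τ, deriv (fun v => P (x, v)) v = dv P (x, v) := by
  have h1 : ∀ v ∈ ball (0 : ℂ) τ, HasDerivAt (fun v => P (x, v)) (dv P (x, v)) v := by
    intro v hv
    have hmem : (x, v) ∈ TB 4 τ := ⟨hx, by simpa using hv⟩
    have h2 : HasFDerivAt P (fderiv ℂ P (x, v)) (x, v) := (hP _ hmem).differentiableAt.hasFDerivAt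
    have h3 : HasDerivAt (fun v : ℂ => (x, v)) ((0 : ℂ), (1 : ℂ)) v :=
      (hasDerivAt_const v x).prodMk (hasDerivAt_id v)
    exact h2.comp_hasDerivAt v h3
  refine ⟨?_, fun v hv => (h1 v hv).deriv⟩
  apply DifferentiableOn.analyticOnNhd _ isOpen_ball
  intro v hv
  exact (h1 v hv).differentiableAt.differentiableWithinAt

/-- the bound for one slice -/
theorem UHH_inner (hGRN : UGRN_stmt) (hTSB : UTSB_stmt) (C0 α : ℝ) (hC0 : 1 ≤ C0) (hα0 : 0 < α)
    (hα1 : α ≤ 1) (P Q : ℂ × ℂ → ℂ) (u : ℂ × ℂ → ℝ) (D τ : ℝ) (hd : Dat P Q u D C0 α τ)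
    (hτ : τ ≤ 1) (s t : ℝ) (hs : 0 < s) (hst : s ≤ t ^ 2) (ht : 0 < t) (htτ : t ≤ τ / 4)
    (hD : 1 / s ≤ D) (x : ℂ) (hx : ‖x‖ < 2) :
    ∫⁻ v in ball (0 : ℂ) t, ENNReal.ofReal (HH s t v * ‖cv P Q (x, v)‖ ^ 2 * om P Q (x, v)) ≤
      ENNReal.ofReal (8 * Real.pi * C0 * D * t ^ α / Real.log (t / s)) := by
  have ht4 : t ≤ 1 / 4 := by linarith
  have hτ0 : 0 < τ := by linarith
  have hst' : s < t := by nlinarith
  have hL : 0 < Real.log (t / s) := Real.log_pos ((one_lt_div hs).mpr hst')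
  obtain ⟨hC2, h01, hzero, -, -, hLz⟩ := hTSB s t hs hst ht ht4
  obtain ⟨hfa, hfd⟩ := UHH_slice P τ hd.hol.hP x (by linarith)
  obtain ⟨hga, hgd⟩ := UHH_slice Q τ hd.hol.hQ x (by linarith)
  obtain ⟨f, hf⟩ : ∃ f : ℂ → ℂ, f = fun v => P (x, v) := ⟨_, rfl⟩
  obtain ⟨g, hg⟩ : ∃ g : ℂ → ℂ, g = fun v => Q (x, v) := ⟨_, rfl⟩
  rw [← hf] at hfa hfd
  rw [← hg] at hga hgd
  have hne : ∀ z ∈ ball (0 : ℂ) τ, f z ≠ 0 ∨ g z ≠ 0 := by
    intro z hz
    have := hd.hol.ne (x, z) ⟨by simpa using (by linarith : ‖x‖ < 4), by simpa using hz⟩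
    rw [hf, hg]
    exact this
  have hpos : ∀ z ∈ ball (0 : ℂ) τ, 0 < ‖f z‖ ^ 2 + ‖g z‖ ^ 2 := by
    intro z hz
    rcases hne z hz with h | h
    · have := norm_pos_iff.mpr h
      positivity
    · have := norm_pos_iff.mpr h
      positivity
  have hsupp : tsupport (HH s t) ⊆ closedBall 0 t := by
    apply closure_minimal _ isClosed_closedBall
    intro v hv
    rw [mem_closedBall, dist_zero_right]
    by_contra hcon
    exact hv (hzero v (by linarith)).1
  have hcs : HasCompactSupport (HH s t) :=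
    IsCompact.of_isClosed_subset (isCompact_closedBall 0 t) (isClosed_tsupport _) hsupp
  have hsub : tsupport (HH s t) ⊆ ball 0 τ := hsupp.trans (closedBall_subset_ball (by linarith))
  obtain ⟨c, hc⟩ : ∃ c : ℝ, c = D * u (x, 0) := ⟨_, rfl⟩
  have hG := hGRN f g τ hfa hga hne (HH s t) hC2 hcs hsub c
  -- the integrand
  obtain ⟨F, hF⟩ : ∃ F : ℂ → ℝ, F = fun z => HH s t z *
    (‖g z * deriv f z - f z * deriv g z‖ ^ 2 / (‖f z‖ ^ 2 + ‖g z‖ ^ 2) ^ 2) := ⟨_, rfl⟩
  have hFc : Continuous F := by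
    rw [continuous_iff_continuousAt]
    intro v
    by_cases hv : v ∈ ball (0 : ℂ) τ
    · have hnb : ball (0 : ℂ) τ ∈ 𝓝 v := isOpen_ball.mem_nhds hv
      have c1 : ContinuousAt f v := (hfa v hv).continuousAt
      have c2 : ContinuousAt g v := (hga v hv).continuousAt
      have c3 : ContinuousAt (deriv f) v := (hfa.deriv v hv).continuousAt
      have c4 : ContinuousAt (deriv g) v := (hga.deriv v hv).continuousAt
      rw [hF]
      refine (hC2.continuous.continuousAt).mul (ContinuousAt.div ?_ ?_ ?_)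
      · exact (((c2.mul c3).sub (c1.mul c4)).norm).pow 2
      · exact ((c1.norm.pow 2).add (c2.norm.pow 2)).pow 2
      · exact (pow_pos (hpos v hv) 2).ne'
    · have hv2 : t < ‖v‖ := by
        rw [mem_ball, dist_zero_right] at hv
        linarith
      have hev : ∀ᶠ w in 𝓝 v, (fun _ => (0 : ℝ)) w = F w := by
        have : {w : ℂ | t < ‖w‖} ∈ 𝓝 v := (isOpen_lt continuous_const continuous_norm).mem_nhds hv2
        filter_upwards [this] with w hw
        rw [hF]
        simp only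
        rw [(hzero w (le_of_lt hw)).1, zero_mul]
      exact (continuousAt_const (y := (0 : ℝ))).congr hev
  have hFs : HasCompactSupport F := by
    rw [hF]
    exact hcs.mul_right
  have hFi : Integrable F volume := hFc.integrable_of_hasCompactSupport hFs
  have hFn : ∀ z, 0 ≤ F z := by
    intro z
    rw [hF]
    have := (h01 z).1
    simp only
    positivity
  -- from the slice to the whole plane
  have h1 : ∫⁻ v in ball (0 : ℂ) t, ENNReal.ofReal (HH s t v * ‖cv P Q (x, v)‖ ^ 2 * om P Q (x, v)) ≤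
      ∫⁻ v, ENNReal.ofReal (F v) := by
    refine le_trans (le_of_eq ?_) (setLIntegral_le_lintegral (ball (0 : ℂ) t) _)
    apply setLIntegral_congr_fun isOpen_ball.measurableSet
    intro v hv
    have hvτ : v ∈ ball (0 : ℂ) τ := ball_subset_ball (by linarith) hv
    simp only
    congr 1
    rw [hF]
    simp only
    rw [hfd v hvτ, hgd v hvτ, hf, hg, om, cv]
    ring
  have h2 : ∫⁻ v, ENNReal.ofReal (F v) = ENNReal.ofReal (∫ v, F v) :=
    (ofReal_integral_eq_lintegral_ofReal hFi (Eventually.of_forall hFn)).symm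
  rw [h2] at h1
  refine h1.trans (ENNReal.ofReal_le_ofReal ?_)
  have h3 : ∫ v, F v = 2 * ∫ z, (Real.log (‖f z‖ ^ 2 + ‖g z‖ ^ 2) / 2 - c) * Lz (HH s t) z := by
    rw [hF]
    exact hG
  rw [h3]
  -- the bound
  have hD0 : 0 < D := lt_of_lt_of_le (by positivity) hD
  obtain ⟨M, hM⟩ : ∃ M : ℝ, M = C0 + D * C0 * t ^ α := ⟨_, rfl⟩
  have hM0 : 0 ≤ M := by
    rw [hM]
    positivity
  have hU : ∀ z, ‖z‖ < t → |Real.log (‖f z‖ ^ 2 + ‖g z‖ ^ 2) / 2 - c| ≤ M := by
    intro z hz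
    have m1 : (x, z) ∈ TB 4 τ := ⟨by simpa using (by linarith : ‖x‖ < 4), by simpa using (by linarith : ‖z‖ < τ)⟩
    have m0 : (x, (0 : ℂ)) ∈ TB 4 τ := ⟨by simpa using (by linarith : ‖x‖ < 4), by simpa using hτ0⟩
    have a1 := hd.app (x, z) m1
    have a2 := hd.hoe (x, z) m1 (x, 0) m0
    have a3 : ‖(x, z) - (x, (0 : ℂ))‖ = ‖z‖ := by
      rw [Prod.mk_sub_mk, sub_self, sub_zero, Prod.norm_def]
      simp
    rw [a3] at a2
    have a4 : ‖z‖ ^ α ≤ t ^ α := Real.rpow_le_rpow (norm_nonneg _) hz.le hα0.le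
    have a5 : |D * u (x, z) - c| ≤ D * C0 * t ^ α := by
      rw [hc, ← mul_sub, abs_mul, abs_of_pos hD0, mul_assoc]
      refine mul_le_mul_of_nonneg_left (a2.trans ?_) hD0.le
      exact mul_le_mul_of_nonneg_left a4 (by linarith)
    have a6 : Real.log (‖f z‖ ^ 2 + ‖g z‖ ^ 2) / 2 - c =
        (Real.log (‖P (x, z)‖ ^ 2 + ‖Q (x, z)‖ ^ 2) / 2 - D * u (x, z)) + (D * u (x, z) - c) := by
      rw [hf, hg]
      ring
    rw [a6, hM]
    exact (abs_add_le _ _).trans (add_le_add a1 a5)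
  obtain ⟨it, et⟩ := UHH_area t ht
  obtain ⟨is, es⟩ := UHH_area s hs
  have hbound : ‖∫ z, (Real.log (‖f z‖ ^ 2 + ‖g z‖ ^ 2) / 2 - c) * Lz (HH s t) z‖ ≤
      ∫ z, M / Real.log (t / s) * ((ball (0 : ℂ) t).indicator (fun _ => 1 / t ^ 2) z +
        (ball (0 : ℂ) s).indicator (fun _ => 1 / s ^ 2) z) := by
    apply norm_integral_le_of_norm_le ((it.add is).const_mul _)
    apply Eventually.of_forall
    intro z
    have n1 : 0 ≤ (ball (0 : ℂ) t).indicator (fun _ => 1 / t ^ 2) z :=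
      indicator_nonneg (fun _ _ => by positivity) z
    have n2 : 0 ≤ (ball (0 : ℂ) s).indicator (fun _ => 1 / s ^ 2) z :=
      indicator_nonneg (fun _ _ => by positivity) z
    by_cases hz : ‖z‖ < t
    · have k1 : max 0 (1 - ‖z‖ ^ 2 / t ^ 2) / t ^ 2 ≤ (ball (0 : ℂ) t).indicator (fun _ => 1 / t ^ 2) z := by
        rw [indicator_of_mem (by simpa using hz)]
        apply div_le_div_of_nonneg_right _ (by positivity)
        apply max_le (by norm_num)
        have : 0 ≤ ‖z‖ ^ 2 / t ^ 2 := by positivity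
        linarith
      have k2 : max 0 (1 - ‖z‖ ^ 2 / s ^ 2) / s ^ 2 ≤ (ball (0 : ℂ) s).indicator (fun _ => 1 / s ^ 2) z := by
        by_cases hzs : ‖z‖ < s
        · rw [indicator_of_mem (by simpa using hzs)]
          apply div_le_div_of_nonneg_right _ (by positivity)
          apply max_le (by norm_num)
          have : 0 ≤ ‖z‖ ^ 2 / s ^ 2 := by positivity
          linarith
        · have : 1 ≤ ‖z‖ ^ 2 / s ^ 2 := by
            rw [one_le_div (by positivity)]
            exact pow_le_pow_left₀ hs.le (not_lt.mp hzs) 2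
          rw [max_eq_left (by linarith), zero_div]
          exact n2
      have k3 : 0 ≤ max 0 (1 - ‖z‖ ^ 2 / t ^ 2) / t ^ 2 := by positivity
      have k4 : 0 ≤ max 0 (1 - ‖z‖ ^ 2 / s ^ 2) / s ^ 2 := by positivity
      have k5 : |Lz (HH s t) z| ≤ ((ball (0 : ℂ) t).indicator (fun _ => 1 / t ^ 2) z +
          (ball (0 : ℂ) s).indicator (fun _ => 1 / s ^ 2) z) / Real.log (t / s) := by
        rw [hLz z, abs_div, abs_of_pos hL]
        apply div_le_div_of_nonneg_right _ hL.le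
        rw [abs_le]
        constructor <;> linarith
      rw [norm_mul, Real.norm_eq_abs, Real.norm_eq_abs]
      calc |Real.log (‖f z‖ ^ 2 + ‖g z‖ ^ 2) / 2 - c| * |Lz (HH s t) z| ≤
          M * (((ball (0 : ℂ) t).indicator (fun _ => 1 / t ^ 2) z +
          (ball (0 : ℂ) s).indicator (fun _ => 1 / s ^ 2) z) / Real.log (t / s)) :=
            mul_le_mul (hU z hz) k5 (abs_nonneg _) hM0
        _ = M / Real.log (t / s) * ((ball (0 : ℂ) t).indicator (fun _ => 1 / t ^ 2) z +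
          (ball (0 : ℂ) s).indicator (fun _ => 1 / s ^ 2) z) := by ring
    · have hz' : t ≤ ‖z‖ := not_lt.mp hz
      have e1 : 1 ≤ ‖z‖ ^ 2 / t ^ 2 := by
        rw [one_le_div (by positivity)]
        exact pow_le_pow_left₀ ht.le hz' 2
      have e2 : 1 ≤ ‖z‖ ^ 2 / s ^ 2 := by
        rw [one_le_div (by positivity)]
        exact pow_le_pow_left₀ hs.le (by linarith) 2
      rw [hLz z, max_eq_left (by linarith), max_eq_left (by linarith)]
      simp only [zero_div, sub_zero, mul_zero, norm_zero]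
      exact mul_nonneg (by positivity) (add_nonneg n1 n2)
  rw [integral_const_mul, integral_add it is, et, es] at hbound
  have h4 : ∫ z, (Real.log (‖f z‖ ^ 2 + ‖g z‖ ^ 2) / 2 - c) * Lz (HH s t) z ≤
      M / Real.log (t / s) * (Real.pi + Real.pi) := (Real.le_norm_self _).trans hbound
  have hM2 : M ≤ 2 * C0 * D * t ^ α := by
    have b1 : 1 ≤ D * s := by
      rw [div_le_iff₀ hs] at hD
      exact hD
    have b2 : t ≤ t ^ α := by
      have := Real.rpow_le_rpow_of_exponent_ge ht (by linarith) hα1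
      rwa [Real.rpow_one] at this
    have b3 : D * s ≤ D * t ^ α := mul_le_mul_of_nonneg_left (by linarith) hD0.le
    rw [hM]
    nlinarith
  calc 2 * ∫ z, (Real.log (‖f z‖ ^ 2 + ‖g z‖ ^ 2) / 2 - c) * Lz (HH s t) z ≤
      2 * (M / Real.log (t / s) * (Real.pi + Real.pi)) := by linarith
    _ = M * (4 * Real.pi / Real.log (t / s)) := by ring
    _ ≤ (2 * C0 * D * t ^ α) * (4 * Real.pi / Real.log (t / s)) :=
        mul_le_mul_of_nonneg_right hM2 (by positivity)
    _ = 8 * Real.pi * C0 * D * t ^ α / Real.log (t / s) := by ring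

/-- continuity of the vertical wronskian -/
theorem UHH_cv (P Q : ℂ × ℂ → ℂ) (τ : ℝ) (h : Hol P Q 4 τ) : ContinuousOn (cv P Q) (TB 4 τ) := by
  have c1 : ContinuousOn P (TB 4 τ) := h.hP.continuousOn
  have c2 : ContinuousOn Q (TB 4 τ) := h.hQ.continuousOn
  have c3 : ContinuousOn (dv P) (TB 4 τ) := by
    have := h.hP.fderiv.continuousOn
    exact this.clm_apply continuousOn_const
  have c4 : ContinuousOn (dv Q) (TB 4 τ) := by
    have := h.hQ.fderiv.continuousOn
    exact this.clm_apply continuousOn_const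
  exact (c2.mul c3).sub (c1.mul c4)

theorem UHH (hGRN : UGRN_stmt) (hTSB : UTSB_stmt) : UHH_stmt := by
  intro C0 α hC0 hα0 hα1
  refine ⟨32 * Real.pi ^ 2 * C0, by positivity, ?_⟩
  intro P Q u D τ hd hτ s t hs hst ht htτ hD
  have ht4 : t ≤ 1 / 4 := by linarith
  have hτ0 : 0 < τ := by linarith
  obtain ⟨hC2, h01, -, -, -, -⟩ := hTSB s t hs hst ht ht4
  have hTB : TB 2 t = ball (0 : ℂ) 2 ×ˢ ball (0 : ℂ) t := by
    ext p
    simp [TB]
  have hmeas : AEMeasurable (fun p : ℂ × ℂ => ENNReal.ofReal (HH s t p.2 * ‖cv P Q p‖ ^ 2 * om P Q p))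
      ((volume.prod volume).restrict (ball (0 : ℂ) 2 ×ˢ ball (0 : ℂ) t)) := by
    apply ENNReal.measurable_ofReal.comp_aemeasurable
    apply ContinuousOn.aemeasurable _ (isOpen_ball.measurableSet.prod isOpen_ball.measurableSet)
    have hsub : ball (0 : ℂ) 2 ×ˢ ball (0 : ℂ) t ⊆ TB 4 τ := by
      rintro ⟨a, b⟩ ⟨h1, h2⟩
      simp only [mem_ball, dist_zero_right] at h1 h2
      exact ⟨by simpa using (by linarith : ‖a‖ < 4), by simpa using (by linarith : ‖b‖ < τ)⟩
    have k1 : ContinuousOn (fun p : ℂ × ℂ => HH s t p.2) (ball (0 : ℂ) 2 ×ˢ ball (0 : ℂ) t) :=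
      (hC2.continuous.comp continuous_snd).continuousOn
    have k2 : ContinuousOn (cv P Q) (ball (0 : ℂ) 2 ×ˢ ball (0 : ℂ) t) := (UHH_cv P Q τ hd.hol).mono hsub
    have k3 : ContinuousOn (om P Q) (ball (0 : ℂ) 2 ×ˢ ball (0 : ℂ) t) := by
      have c1 : ContinuousOn P (ball (0 : ℂ) 2 ×ˢ ball (0 : ℂ) t) := hd.hol.hP.continuousOn.mono hsub
      have c2 : ContinuousOn Q (ball (0 : ℂ) 2 ×ˢ ball (0 : ℂ) t) := hd.hol.hQ.continuousOn.mono hsub
      apply ContinuousOn.inv₀ (((c1.norm.pow 2).add (c2.norm.pow 2)).pow 2)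
      intro p hp
      have : 0 < ‖P p‖ ^ 2 + ‖Q p‖ ^ 2 := by
        rcases hd.hol.ne p (hsub hp) with h | h
        · have := norm_pos_iff.mpr h
          positivity
        · have := norm_pos_iff.mpr h
          positivity
      exact (pow_pos this 2).ne'
    exact (k1.mul (k2.norm.pow 2)).mul k3
  rw [hTB, Measure.volume_eq_prod, setLIntegral_prod _ hmeas]
  calc ∫⁻ x in ball (0 : ℂ) 2, ∫⁻ v in ball (0 : ℂ) t,
        ENNReal.ofReal (HH s t (x, v).2 * ‖cv P Q (x, v)‖ ^ 2 * om P Q (x, v)) ≤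
      ∫⁻ _x in ball (0 : ℂ) 2, ENNReal.ofReal (8 * Real.pi * C0 * D * t ^ α / Real.log (t / s)) := by
        apply setLIntegral_mono' isOpen_ball.measurableSet
        intro x hx
        exact UHH_inner hGRN hTSB C0 α hC0 hα0 hα1 P Q u D τ hd hτ s t hs hst ht htτ hD x
          (by simpa using hx)
    _ = ENNReal.ofReal (8 * Real.pi * C0 * D * t ^ α / Real.log (t / s)) * ENNReal.ofReal (4 * Real.pi) := by
        rw [setLIntegral_const, Complex.volume_ball]
        congr 1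
        rw [← ENNReal.ofReal_pow (by norm_num), ENNReal.ofReal_mul (by norm_num)]
        norm_num
        rw [ENNReal.ofReal_eq_coe_nnreal Real.pi_pos.le]
        rfl
    _ = ENNReal.ofReal (32 * Real.pi ^ 2 * C0 * D * t ^ α / Real.log (t / s)) := by
        rw [← ENNReal.ofReal_mul' (by positivity)]
        congr 1
        ring

end

end Pool.Agent.P2U
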